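import Mathlib
import Pool.Agent.H727R2.BQ.Main

set_option autoImplicit false

namespace Pool.Agent.Results.MP_a57ff3_nt.EffectiveMultiplier

open Finset
open Pool.Agent.H727R2
open Pool.Agent.H727R2.BQ (P NoRel g relation val_inj val_bound)

/-- the set `L` of the integers `∑ e_i 4^i` (finite sums) with all digits `e_i` in `{-1, 0, 1}` -/
def L : Set ℤ := {n | ∃ (N : ℕ) (e : ℕ → ℤ), (∀ i, e i = -1 ∨ e i = 0 ∨ e i = 1) ∧
  n = ∑ i ∈ range N, e i * 4 ^ i}

private lemma neg_mem {n : ℤ} (h : n ∈ L) : -n ∈ L := by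
  obtain ⟨N, e, he, rfl⟩ := h
  refine ⟨N, fun i => - e i, ?_, ?_⟩
  · intro i
    rcases he i with h | h | h <;> simp [h]
  · rw [← sum_neg_distrib]
    apply sum_congr rfl
    intro i _
    ring

private lemma val_eq {N : ℕ} {S : Finset ℕ} (hS : S ∈ P N) :
    (BQ.val S : ℤ) = ∑ i ∈ range N, (if i ∈ S then 1 else 0) * 4 ^ i := by
  unfold BQ.val
  push_cast
  have h := mem_powerset.1 hS
  rw [← sum_subset h]
  · apply sum_congr rfl
    intro i hi
    simp [hi]
  · intro i _ hi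
    simp [hi]

private lemma diff_mem {N : ℕ} {S T : Finset ℕ} (hS : S ∈ P N) (hT : T ∈ P N) :
    (BQ.val S : ℤ) - BQ.val T ∈ L := by
  refine ⟨N, fun i => (if i ∈ S then 1 else 0) - (if i ∈ T then 1 else 0), ?_, ?_⟩
  · intro i
    by_cases h1 : i ∈ S <;> by_cases h2 : i ∈ T <;> simp [h1, h2]
  · rw [val_eq hS, val_eq hT, ← sum_sub_distrib]
    apply sum_congr rfl
    intro i _
    ring

/-- the natural number version -/
private lemma nat_version (K : ℕ) (hK : Odd K) (h3 : 3 ≤ K) : ∃ (N m : ℕ) (x : ℤ), 0 < m ∧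
    (m : ℤ) ∈ L ∧ x ∈ L ∧ x = K * m ∧ 3 * (K * m) < 4 ^ N ∧ ((N : ℝ) + 1 < 4 * Real.sqrt K) := by
  set n := Nat.clog 4 K with hn
  have h1 : K ≤ 4 ^ n := Nat.le_pow_clog (by norm_num) K
  have h2 : 4 ^ (n - 1) < K := by
    have := Nat.pow_pred_clog_lt_self (b := 4) (by norm_num) (x := K) (by omega)
    exact this
  have hn1 : 1 ≤ n := by
    by_contra hc
    have : n = 0 := by omega
    rw [this] at h1
    omega
  have hrel := relation K n hK h1
  have hN : g (2 ^ n) + 1 ≤ 2 * 2 ^ n := by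
    unfold g
    have h := sub_one_mul_padicValNat_factorial_lt_of_ne_zero (p := 2) (n := 2 ^ n) (by positivity)
    have h' : (2 - 1) * padicValNat 2 (2 ^ n).factorial = padicValNat 2 (2 ^ n).factorial := by
      norm_num
    rw [h'] at h
    omega
  have hsqrt : ((g (2 ^ n) : ℝ) + 1 < 4 * Real.sqrt K) := by
    have h4 : (2 : ℝ) ^ (n - 1) < Real.sqrt K := by
      apply Real.lt_sqrt_of_sq_lt
      rw [← pow_mul, mul_comm, pow_mul]
      norm_num
      exact_mod_cast h2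
    have h5 : (g (2 ^ n) : ℝ) + 1 ≤ 2 * 2 ^ n := by exact_mod_cast hN
    have h6 : (2 : ℝ) ^ n = 2 * 2 ^ (n - 1) := by
      rw [← pow_succ']
      congr 1
      omega
    rw [h6] at h5
    linarith
  unfold NoRel at hrel
  push Not at hrel
  obtain ⟨S, hS, T, hT, S', hS', T', hT', he, hne⟩ := hrel
  have hSS : BQ.val S ≠ BQ.val S' := by
    intro h
    rw [h] at he
    exact hne (val_inj h) (val_inj (by omega))
  have b1 := val_bound hS
  have b2 := val_bound hS'
  have b3 := val_bound hT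
  have b4 := val_bound hT'
  have hez : (K : ℤ) * BQ.val S + BQ.val T = K * BQ.val S' + BQ.val T' := by exact_mod_cast he
  rcases lt_or_gt_of_ne hSS with h | h
  · refine ⟨g (2 ^ n), BQ.val S' - BQ.val S, (BQ.val T : ℤ) - BQ.val T', by omega, ?_, diff_mem hT hT', ?_, ?_,
      hsqrt⟩
    · rw [Nat.cast_sub h.le]; exact diff_mem hS' hS
    · rw [Nat.cast_sub h.le]; linarith
    · have h7 : K * (BQ.val S' - BQ.val S) + BQ.val T' = BQ.val T := by
        zify [h.le]; linarith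
      omega
  · refine ⟨g (2 ^ n), BQ.val S - BQ.val S', (BQ.val T' : ℤ) - BQ.val T, by omega, ?_, diff_mem hT' hT, ?_, ?_,
      hsqrt⟩
    · rw [Nat.cast_sub h.le]; exact diff_mem hS hS'
    · rw [Nat.cast_sub h.le]; linarith
    · have h7 : K * (BQ.val S - BQ.val S') + BQ.val T = BQ.val T' := by
        zify [h.le]; linarith
      omega

/-- every odd `k` with `|k| ≥ 3` has a multiplier `m` with `12 |k| m < 4 ^ (4 √|k|)` -/
theorem result (k : ℤ) (hk : Odd k) (h3 : 3 ≤ |k|) : ∃ m : ℤ, 0 < m ∧ m ∈ L ∧ k * m ∈ L ∧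
    12 * (|k| : ℝ) * (m : ℝ) < (4 : ℝ) ^ (4 * Real.sqrt (|k| : ℝ)) := by
  have hK : Odd k.natAbs := Int.natAbs_odd.2 hk
  have hK3 : 3 ≤ k.natAbs := by
    zify
    exact h3
  obtain ⟨N, m, x, hm, hmL, hxL, hx, hlt, hsq⟩ := nat_version k.natAbs hK hK3
  refine ⟨m, by exact_mod_cast hm, hmL, ?_, ?_⟩
  · rcases le_or_gt 0 k with h | h
    · have : k * m = x := by
        rw [hx, Int.natCast_natAbs, abs_of_nonneg h]
      rw [this]; exact hxL
    · have : k * m = - x := by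
        rw [hx, Int.natCast_natAbs, abs_of_neg h]; ring
      rw [this]; exact neg_mem hxL
  · have habs : ((k.natAbs : ℕ) : ℝ) = |(k : ℝ)| := by
      rw [Nat.cast_natAbs]; push_cast; rfl
    rw [habs] at hsq
    have h1 : (3 : ℝ) * (|(k : ℝ)| * m) < 4 ^ N := by
      rw [← habs]
      exact_mod_cast hlt
    have h2 : (4 : ℝ) * 4 ^ N = (4 : ℝ) ^ ((N : ℝ) + 1) := by
      rw [Real.rpow_add (by norm_num), Real.rpow_one, Real.rpow_natCast]
      ring
    have h3 : (4 : ℝ) ^ ((N : ℝ) + 1) < (4 : ℝ) ^ (4 * Real.sqrt (|(k : ℝ)|)) :=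
      Real.rpow_lt_rpow_of_exponent_lt (by norm_num) hsq
    have h4 : ((|k| : ℤ) : ℝ) = |(k : ℝ)| := Int.cast_abs
    simp only [Int.cast_natCast]
    nlinarith

end Pool.Agent.Results.MP_a57ff3_nt.EffectiveMultiplier
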